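import Pool.Agent.Q258.BC.St

/-!
# A bicompatible permutation statistic which is constant on the lengths at most five is trivial

Together with the theorem listed in the problem (a bicompatible statistic is equivalent to `Des`, `Pk` or `Val`,
or is constant on each length at most six) this shows that `Des`, `Pk`, `Val` and the trivial statistic are
the only bicompatible permutation statistics up to equivalence.
-/

set_option autoImplicit false

namespace Pool.Agent.Results.MP_7c1678_co.NoFurtherStatistic

/-- A permutation: a finite sequence of distinct positive integers. -/
def IsPerm (π : List ℕ) : Prop := π.Nodup ∧ ∀ a ∈ π, 0 < a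

/-- Two sequences of the same length have the same relative order. -/
def SameOrder (π σ : List ℕ) : Prop := π.length = σ.length ∧
  ∀ (i j : ℕ) (hi : i < π.length) (hj : j < π.length) (hi' : i < σ.length) (hj' : j < σ.length),
    π[i] < π[j] ↔ σ[i] < σ[j]

/-- A permutation statistic: permutations with the same relative order have the same value. (The values
at the lists which are not permutations play no role.) -/
def IsStatistic {α : Type} (st : List ℕ → α) : Prop :=
  ∀ π σ, IsPerm π → IsPerm σ → SameOrder π σ → st π = st σ

/-- `τ` is a shuffle of `π` and `σ`: a permutation of length `|π| + |σ|` which contains both as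
subsequences. -/
def IsShuffle (π σ τ : List ℕ) : Prop :=
  IsPerm τ ∧ τ.length = π.length + σ.length ∧ π.Sublist τ ∧ σ.Sublist τ

/-- Shuffle compatibility: the multiset of the values at the shuffles of two disjoint permutations, given
here by the multiplicities of all values `v`, depends only on the two values and the two lengths. -/
def ShuffleCompatible {α : Type} (st : List ℕ → α) : Prop :=
  ∀ π σ π' σ', IsPerm π → IsPerm σ → IsPerm π' → IsPerm σ' → π.Disjoint σ → π'.Disjoint σ' →
    π.length = π'.length → σ.length = σ'.length → st π = st π' → st σ = st σ' →
    ∀ v, {τ | IsShuffle π σ τ ∧ st τ = v}.ncard = {τ | IsShuffle π' σ' τ ∧ st τ = v}.ncard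

/-- Substring compatibility: permutations of the same length and with the same value have the same value
at the substrings `π_i ... π_j`, `1 ≤ i ≤ j ≤ n`. -/
def SubstringCompatible {α : Type} (st : List ℕ → α) : Prop :=
  ∀ π σ, IsPerm π → IsPerm σ → π.length = σ.length → st π = st σ →
    ∀ i j, 1 ≤ i → i ≤ j → j ≤ π.length →
      st ((π.drop (i - 1)).take (j + 1 - i)) = st ((σ.drop (i - 1)).take (j + 1 - i))

/-- A bicompatible permutation statistic. -/
structure Bicompatible {α : Type} (st : List ℕ → α) : Prop where
  statistic : IsStatistic st
  shuffle : ShuffleCompatible st
  substring : SubstringCompatible st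

/-- Equivalent statistics: they define the same partition of the permutations of each length. -/
def Equivalent {α β : Type} (st : List ℕ → α) (st' : List ℕ → β) : Prop :=
  ∀ π σ, IsPerm π → IsPerm σ → π.length = σ.length → (st π = st σ ↔ st' π = st' σ)

/-- The trivial statistic. -/
def triv : List ℕ → Unit := fun _ => ()

/-- A bicompatible statistic which is constant on the permutations of each length at most five is
equivalent to the trivial statistic, that is, it is constant on the permutations of each length. -/
theorem result {α : Type} (st : List ℕ → α) (h : Bicompatible st)
    (h5 : ∀ π σ, IsPerm π → IsPerm σ → π.length = σ.length → π.length ≤ 5 → st π = st σ) :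
    Equivalent st triv ∧ ∀ π σ, IsPerm π → IsPerm σ → π.length = σ.length → st π = st σ := by
  have key : ∀ π σ, IsPerm π → IsPerm σ → π.length = σ.length → st π = st σ :=
    Pool.Agent.Q258.BC.trivial_of_five h.statistic h.shuffle h.substring h5
  exact ⟨fun π σ h1 h2 h3 => ⟨fun _ => rfl, fun _ => key π σ h1 h2 h3⟩, key⟩

end Pool.Agent.Results.MP_7c1678_co.NoFurtherStatistic
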